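import Pool.Agent.Run7.h706.Imb
import Pool.Agent.R64.EGdeg

set_option autoImplicit false

/-!
# The imbalance conjecture

If the ends of every edge of a finite simple graph `G` have different degrees, then the multiset of
the imbalances `|deg u - deg v|` of the edges `u v` of `G` is the degree multiset of a simple graph.

Proof. Let `T` be a set of `k` edges; we show the Erdos-Gallai inequality
`∑ e ∈ T, imb e ≤ k (k - 1) + ∑ e ∉ T, min (imb e) k`. Let `u` be an endpoint of an edge of `T` of
maximal degree `Δ`. All edges in `T` have imbalance at most `Δ - 1`, so we may assume `k < Δ` and have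
to show that the last sum is at least `k (Δ - k)`. Let `t` of the edges at `u` be in `T`, let `a` of
the other edges at `u` have imbalance at least `k`, and let `C` be the set of the `s = Δ - t - a`
remaining neighbours of `u`. If `v ∈ C` then `imb (u v) + deg v ≥ Δ`. There are at least
`∑ v ∈ C, (deg v - 1) - s (s - 1) / 2` edges which avoid `u` and meet `C`, at most `k - t` of them are
in `T`, and each of the others contributes at least `1`. So the sum is at least
`a k + s (Δ - 1) - s (s - 1) / 2 - (k - t)`, and this is at least `k (Δ - k)` because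
`s ≤ Δ - t` and `t ≥ 1`. (The theorem of Erdos and Gallai is `Pool/Agent/R64/EGdeg.lean`.)
-/

universe u

namespace Pool.Agent.Results.MP_440a65_co.ImbalancesAreGraphic

open Finset

open Classical in
/-- The imbalance of the edge `u v` of `G`: the absolute value of `deg u - deg v`. -/
noncomputable def imbalance {V : Type u} [Fintype V] (G : SimpleGraph V) (e : Sym2 V) : ℕ :=
  Sym2.lift ⟨fun u v => ((G.degree u : ℤ) - (G.degree v : ℤ)).natAbs, fun u v => by
    change ((G.degree u : ℤ) - (G.degree v : ℤ)).natAbs =
      ((G.degree v : ℤ) - (G.degree u : ℤ)).natAbs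
    omega⟩ e

open Classical in
/-- The multiset of the imbalances of the edges of `G`. -/
noncomputable def imbalances {V : Type u} [Fintype V] (G : SimpleGraph V) : Multiset ℕ :=
  G.edgeFinset.val.map (imbalance G)

open Classical in
/-- The multiset `M` is the multiset of the degrees of a finite simple graph. -/
def IsGraphic (M : Multiset ℕ) : Prop :=
  ∃ (n : ℕ) (H : SimpleGraph (Fin n)), M = univ.val.map fun v => H.degree v

/-- If every edge of the finite simple graph `G` has positive imbalance, then the multiset of the
imbalances of the edges of `G` is graphic. -/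
theorem result {V : Type u} [Fintype V] (G : SimpleGraph V)
    (h : ∀ e ∈ G.edgeSet, 0 < imbalance G e) : IsGraphic (imbalances G) := by
  classical
  have him : ∀ e, imbalance G e = Run7.h706.Imb.im G e := by
    intro e
    induction e using Sym2.ind with
    | _ x y =>
      rw [Run7.h706.Imb.im_mk]
      change ((G.degree x : ℤ) - (G.degree y : ℤ)).natAbs = _
      congr!
  obtain ⟨m, hm⟩ : ∃ m, m = G.edgeFinset.card := ⟨_, rfl⟩
  let f : Fin m ≃ G.edgeFinset := (G.edgeFinset.equivFin.trans (finCongr hm.symm)).symm
  let g : Fin m → ℕ := fun i => imbalance G (f i).1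
  let σ : Equiv.Perm (Fin m) := Tuple.sort (fun i => OrderDual.toDual (g i))
  let F : Fin m → Sym2 V := fun i => (f (σ i)).1
  have hFinj : Function.Injective F := by
    intro i j hij
    exact σ.injective (f.injective (Subtype.ext hij))
  have hFim : univ.image F = G.edgeFinset := by
    ext e
    rw [mem_image]
    constructor
    · rintro ⟨i, -, rfl⟩
      exact (f (σ i)).2
    · intro he
      exact ⟨σ.symm (f.symm ⟨e, he⟩), mem_univ _, by simp [F]⟩
  have hanti : Antitone fun i => imbalance G (F i) := by
    intro i j hij
    exact Tuple.monotone_sort (fun i => OrderDual.toDual (g i)) hij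
  have hsumim : ∀ S : Finset (Fin m), ∀ w : Sym2 V → ℕ,
      ∑ e ∈ S.image F, w e = ∑ i ∈ S, w (F i) :=
    fun S w => sum_image (fun a _ b _ hab => hFinj hab)
  have hev : Even (∑ i : Fin m, imbalance G (F i)) := by
    rw [← hsumim univ, hFim, sum_congr rfl (fun e _ => him e)]
    exact Run7.h706.Imb.even_sum G
  obtain ⟨H, hH⟩ := Pool.Agent.R64.EGdeg.erdosGallai (fun i => imbalance G (F i)) hanti hev (by
    intro r
    have hT : (Iic r).image F ⊆ G.edgeFinset := by
      rw [← hFim]
      exact image_subset_image (subset_univ _)
    have hTc : ((Iic r).image F).card = r.1 + 1 := by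
      rw [card_image_of_injective _ hFinj, Fin.card_Iic]
    have hsd : G.edgeFinset \ (Iic r).image F = (Ioi r).image F := by
      rw [← hFim, ← image_sdiff _ _ hFinj]
      congr 1
      ext i
      simp
    have hmain := Run7.h706.Imb.main G (fun e he => by
      rw [← him]
      exact h e (SimpleGraph.mem_edgeFinset.1 he)) ((Iic r).image F) hT (by omega)
    rw [hTc, hsd, hsumim, hsumim, Nat.add_sub_cancel] at hmain
    simpa only [him] using hmain)
  refine ⟨m, H, ?_⟩
  unfold imbalances
  rw [← hFim, image_val_of_injOn (fun a _ b _ hab => hFinj hab), Multiset.map_map]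
  refine Multiset.map_congr rfl fun i _ => ?_
  rw [Function.comp_apply, ← hH i, Pool.Agent.R64.EGdeg.dg, Pool.Agent.R64.EGdeg.nbr,
    ← SimpleGraph.card_neighborFinset_eq_degree]
  congr 1
  ext w
  simp

end Pool.Agent.Results.MP_440a65_co.ImbalancesAreGraphic
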